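import Mathlib

set_option autoImplicit false

open Filter Topology

namespace Pool.Agent.Results.MP_e24518_an.Proof

def OC (E : Type*) [NormedAddCommGroup E] [Lattice E] : Prop :=
  ∀ x : ℕ → E, Monotone x ∨ Antitone x → (∃ a b, ∀ n, a ≤ x n ∧ x n ≤ b) → ∃ l, Tendsto x atTop (𝓝 l)

def IsCap {X E : Type*} [MeasurableSpace X] [Zero E] [LE E] (μ : Set X → E) : Prop :=
  μ ∅ = 0 ∧ (∀ A, MeasurableSet A → 0 ≤ μ A) ∧
    ∀ A B, MeasurableSet A → MeasurableSet B → A ⊆ B → μ A ≤ μ B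

def AC {X E : Type*} [MeasurableSpace X] [Norm E] (μ : Set X → E) (l : Set X → ℝ) : Prop :=
  ∀ ε > 0, ∃ δ > 0, ∀ A, MeasurableSet A → l A < δ → ‖μ A‖ < ε

section
variable {E : Type*} [NormedAddCommGroup E] [NormedSpace ℝ E] [Lattice E] [IsOrderedAddMonoid E]
  [PosSMulMono ℝ E] [HasSolidNorm E]

lemma norming {x : E} (hx : 0 ≤ x) {ε : ℝ} (h0 : 0 < ε) (h : ε ≤ ‖x‖) : ∃ φ : E →L[ℝ] ℝ,
    (∀ y, 0 ≤ y → 0 ≤ φ y) ∧ 1 ≤ φ x ∧ ∀ a, ‖a‖ < ε → φ a < 1 := by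
  obtain ⟨f, u, h1, h2⟩ := geometric_hahn_banach_open (convex_ball 0 ε) Metric.isOpen_ball (convex_Ici x)
    (Set.disjoint_left.2 fun a ha hb => (mem_ball_zero_iff.1 ha).not_ge (h.trans
      (norm_le_norm_of_abs_le_abs (by rwa [abs_of_nonneg hx, abs_of_nonneg (hx.trans hb)]))))
  have u0 : 0 < u := by simpa using h1 0 (Metric.mem_ball_self h0)
  refine ⟨u⁻¹ • f, fun y hy => mul_nonneg (inv_pos.2 u0).le ?_, (one_le_inv_mul₀ u0).2 (h2 x le_rfl),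
    fun a ha => (inv_mul_lt_one₀ u0).2 (h1 a (mem_ball_zero_iff.2 ha))⟩
  refine not_lt.1 fun h3 : f y < 0 => ?_
  obtain ⟨n, hn⟩ := exists_lt_nsmul (neg_pos.2 h3) (f x)
  have := h2 (x + n • y) (le_add_of_nonneg_right (nsmul_nonneg hy n))
  simp only [map_add, map_nsmul, smul_neg] at this hn
  linarith

lemma level (hE : OC E) (u : E) {ε : ℝ} (h0 : 0 < ε) : ∃ φ : E →L[ℝ] ℝ, (∀ y, 0 ≤ y → 0 ≤ φ y) ∧
    ∃ δ > 0, ∀ x, 0 ≤ x → x ≤ u → φ x < δ → ‖x‖ < ε := by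
  by_contra! H
  have H' : ∀ (ψ : {φ : E →L[ℝ] ℝ // ∀ y, 0 ≤ y → 0 ≤ φ y}) (n : ℕ), ∃ (x : E) (φ : E →L[ℝ] ℝ), 0 ≤ x ∧
      x ≤ u ∧ ψ.1 x < (1 / 2) ^ (n + 1) ∧ (∀ y, 0 ≤ y → 0 ≤ φ y) ∧ 1 ≤ φ x ∧ ∀ a, ‖a‖ < ε → φ a < 1 :=
    fun ψ n => by
      obtain ⟨x, a1, a2, a3, a4⟩ := H ψ.1 ψ.2 ((1 / 2) ^ (n + 1)) (by positivity)
      obtain ⟨φ, hφ⟩ := norming a1 h0 a4
      exact ⟨x, φ, a1, a2, a3, hφ⟩
  choose g F g0 g1 g2 f0 f1 f2 using H'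
  obtain ⟨ψ, hψ⟩ : ∃ ψ : ℕ → {φ : E →L[ℝ] ℝ // ∀ y, 0 ≤ y → 0 ≤ φ y},
      ∀ n, (ψ (n + 1)).1 = (ψ n).1 + F (ψ n) n :=
    ⟨fun n => n.rec ⟨0, fun _ _ => le_rfl⟩ fun n ψ => ⟨ψ.1 + F ψ n, fun y hy =>
      add_nonneg (ψ.2 y hy) (f0 ψ n y hy)⟩, fun _ => rfl⟩
  have mono : ∀ n a b, a ≤ b → F (ψ n) n a ≤ F (ψ n) n b := fun n a b h => by
    simpa using f0 _ n _ (sub_nonneg.2 h)
  have h1 : ∀ n k y, 0 ≤ y → F (ψ n) n y ≤ (ψ (n + 1 + k)).1 y := fun n k y hy => by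
    induction k with
    | zero => exact hψ n ▸ le_add_of_nonneg_left ((ψ n).2 y hy)
    | succ k ih => exact ih.trans (hψ (n + 1 + k) ▸ le_add_of_nonneg_right (f0 _ _ y hy))
  let s : ℕ → ℕ → E := fun n => partialSups fun k => g (ψ (n + k)) (n + k)
  have s0 : ∀ n m, 0 ≤ s n m ∧ s n m ≤ u := fun n m =>
    ⟨(g0 _ _).trans (le_partialSups (fun k => g (ψ (n + k)) (n + k)) m), partialSups_le _ _ _ fun _ _ => g1 _ _⟩
  have s1 : ∀ n, Monotone (s n) := fun n => (partialSups _).monotone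
  choose y hy using fun n => hE (s n) (.inl (s1 n)) ⟨0, u, s0 n⟩
  have y1 := fun n => (s1 n).ge_of_tendsto (hy n)
  obtain ⟨l, hl⟩ := hE y (.inr (antitone_nat_of_succ_le fun n => le_of_tendsto' (hy _) fun m =>
    partialSups_le _ _ _ fun k _ => le_trans (by
      rw [add_right_comm]; exact le_partialSups (fun k => g (ψ (n + k)) (n + k)) (k + 1)) (y1 n (k + 1))))
    ⟨0, u, fun n => ⟨(s0 n 0).1.trans (y1 n 0), le_of_tendsto' (hy n) fun m => (s0 n m).2⟩⟩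
  obtain ⟨n, hn⟩ := ((((hl.sub (hl.comp (tendsto_add_atTop_nat 1))).const_smul (2 : ℝ)).norm).eventually
    (gt_mem_nhds (by simpa using h0))).exists
  have h2 := f2 (ψ n) n _ hn
  have h3 := (f1 (ψ n) n).trans (mono n _ _ (y1 n 0))
  have h4 : ∀ k, F (ψ n) n (g (ψ (n + 1 + k)) (n + 1 + k)) ≤ (1 / 2) ^ (k + 2) := fun k =>
    (h1 n k _ (g0 _ _)).trans ((g2 _ _).le.trans (pow_le_pow_of_le_one one_half_pos.le
      one_half_lt_one.le (by omega)))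
  have h5 : ∀ m, F (ψ n) n (s (n + 1) m) ≤ 1 / 2 - (1 / 2) ^ (m + 2) := fun m => by
    induction m with
    | zero => exact (h4 0).trans (by norm_num)
    | succ m ih =>
      have := mono n _ _ ((partialSups_succ _ m).trans_le (sup_le (le_add_of_nonneg_right (g0 _ _))
        (le_add_of_nonneg_left (s0 (n + 1) m).1)) : s (n + 1) (m + 1) ≤ s (n + 1) m + _)
      rw [map_add] at this
      refine this.trans ((add_le_add ih (h4 (m + 1))).trans_eq ?_)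
      ring
  have h6 := le_of_tendsto' (((F (ψ n) n).continuous.tendsto _).comp (hy (n + 1))) fun m =>
    (h5 m).trans (sub_le_self _ (by positivity))
  simp only [map_smul, map_sub, smul_eq_mul, Function.comp] at h2
  linarith

end

theorem result {X E : Type*} [MeasurableSpace X] [NormedAddCommGroup E] [NormedSpace ℝ E] [Lattice E]
    [IsOrderedAddMonoid E] [PosSMulMono ℝ E] [HasSolidNorm E] [CompleteSpace E] (hE : OC E)
    (μ : Set X → E) (hμ : IsCap μ) : ∃ φ : E →L[ℝ] ℝ, (∀ y, 0 ≤ y → 0 ≤ φ y) ∧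
      IsCap (fun A => φ (μ A)) ∧ AC μ fun A => φ (μ A) := by
  choose φ h1 δ h2 h3 using fun k : ℕ => level hE (μ .univ) (Nat.one_div_pos_of_nat (n := k))
  let c : ℕ → ℝ := fun k => (1 / 2) ^ k / (‖φ k‖ + 1)
  have c0 : ∀ k, 0 < c k := fun k => by positivity
  have h4 : Summable fun k => c k • φ k := .of_norm_bounded summable_geometric_two fun k => by
    rw [norm_smul, Real.norm_of_nonneg (c0 k).le, div_mul_eq_mul_div, div_le_iff₀ (by positivity)]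
    gcongr
    linarith
  have h5 : ∀ y, HasSum (fun k => c k * φ k y) ((∑' k, c k • φ k) y) := fun y =>
    h4.hasSum.mapL (ContinuousLinearMap.apply ℝ ℝ y)
  have h6 : ∀ y, 0 ≤ y → 0 ≤ (∑' k, c k • φ k) y := fun y hy =>
    (h5 y).nonneg fun k => mul_nonneg (c0 k).le (h1 k y hy)
  refine ⟨_, h6, ⟨by simp [hμ.1], fun A hA => h6 _ (hμ.2.1 A hA), fun A B hA hB h => by
    simpa using h6 _ (sub_nonneg.2 (hμ.2.2 A B hA hB h))⟩, fun ε hε => ?_⟩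
  obtain ⟨k, hk⟩ := exists_nat_one_div_lt hε
  exact ⟨c k * δ k, mul_pos (c0 k) (h2 k), fun A hA h => (h3 k _ (hμ.2.1 A hA) (hμ.2.2 _ _ hA .univ
    A.subset_univ) (lt_of_mul_lt_mul_left ((le_hasSum (h5 _) k fun j _ => mul_nonneg (c0 j).le
      (h1 j _ (hμ.2.1 A hA))).trans_lt h) (c0 k).le)).trans hk⟩

end Pool.Agent.Results.MP_e24518_an.Proof
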